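import Mathlib
import Pool.Graph.R_seed8.H350R3.MG.PLem
import Pool.Agent.H35.FP.Cube

set_option autoImplicit false

/-!
# `t ^ 3` general fat points of `ℙ ^ 3`

* For all `t ≥ 1`, all `μ` and all `d`, the fat point scheme of `t ^ 3` general points of `ℙ ^ 3` of
  the same multiplicity `μ` imposes maximal conditions in degree `d`: there are no failures at all.
* If all multiplicities are `≤ m`, where `m ≥ 2`, the same is true for any number of points and any
  multiplicities in every degree `d ≥ m ((m + 1) ^ 2 + 1) + (⌊m ^ 2 / 3⌋ + 10) m`.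
* The classes are closed under collisions of points, which produces systems with unbounded and
  unequal multiplicities.
-/

namespace Pool.Agent.Results.MP_1dafdd_ag.PerfectCubes

open MvPolynomial
open scoped LinearAlgebra.Projectivization
open Pool.Agent.H350R3.MG

/-- `V_d(Γ)`: the forms of degree `d` vanishing to order at least `m i` at the `i`-th point. -/
noncomputable def forms {r k : ℕ} (d : ℕ) (m : Fin k → ℕ) (P : Fin k → ℙ ℂ (Fin (r + 1) → ℂ)) :
    Submodule ℂ (MvPolynomial (Fin (r + 1)) ℂ) :=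
  homogeneousSubmodule (Fin (r + 1)) ℂ d ⊓
    Submodule.restrictScalars ℂ (⨅ i, primeIdeal (P i) ^ m i : Ideal (MvPolynomial (Fin (r + 1)) ℂ))

/-- `Γ` imposes maximal conditions in degree `d`. -/
def ImposesMaximalConditions {r k : ℕ} (d : ℕ) (m : Fin k → ℕ)
    (P : Fin k → ℙ ℂ (Fin (r + 1) → ℂ)) : Prop :=
  (Module.finrank ℂ (forms d m P) : ℤ) =
    max 0 (((d + r).choose r : ℤ) - ∑ i, ((m i + r - 1).choose r : ℤ))

/-- The smallest class of pairs consisting of a degree `d` and a multiset `M` of multiplicities of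
points of `ℙ ^ 3` with the following properties:

* it contains `t ^ 3` points of multiplicity `μ` in degree `d` if
  `binom (d + 3) 3 ≤ t ^ 3 * binom (μ + 2) 3`;
* it contains `M` in degree `d ≥ m ((m + 1) ^ 2 + 1) + (⌊m ^ 2 / 3⌋ + 10) m` if all elements of `M`
  are `≤ m`, `m ≥ 2`, and `binom (d + 3) 3 ≤ ∑ binom (μ + 2) 3`, where `μ` runs through `M`;
* it is closed under adding a point and under decreasing the degree;
* if it contains `{μ} + M` in degree `d` and `M'` in degree `μ - 1`, it contains `M' + M` in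
  degree `d`. -/
inductive NoForms : ℕ → Multiset ℕ → Prop
  | cubes (t μ d : ℕ) (ht : 1 ≤ t) (h : (d + 3).choose 3 ≤ t ^ 3 * (μ + 2).choose 3) :
      NoForms d (Multiset.replicate (t ^ 3) μ)
  | bounded (m d : ℕ) (M : Multiset ℕ) (hm : 2 ≤ m) (hM : ∀ μ ∈ M, μ ≤ m)
      (hd : m * ((m + 1) ^ 2 + 1) + (m ^ 2 / 3 + 10) * m ≤ d)
      (h : (d + 3).choose 3 ≤ (M.map fun μ => (μ + 2).choose 3).sum) : NoForms d M
  | point (d b : ℕ) (M : Multiset ℕ) (h : NoForms d M) : NoForms d (b ::ₘ M)
  | degree (d d' : ℕ) (M : Multiset ℕ) (hd : d' ≤ d) (h : NoForms d M) : NoForms d' M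
  | collision (d μ : ℕ) (M M' : Multiset ℕ) (h : NoForms d (μ ::ₘ M))
      (h' : NoForms (μ - 1) M') : NoForms d (M' + M)

/-- The smallest class of pairs consisting of a degree `d` and a multiset `M` of multiplicities of
points of `ℙ ^ 3` with the following properties:

* it contains `t ^ 3` points of multiplicity `μ` in degree `d` if
  `t ^ 3 * binom (μ + 2) 3 ≤ binom (d + 3) 3`;
* it contains `M` in degree `d ≥ m ((m + 1) ^ 2 + 1) + (⌊m ^ 2 / 3⌋ + 10) m` if all elements of `M`
  are `≤ m`, `m ≥ 2`, and `∑ binom (μ + 2) 3 ≤ binom (d + 3) 3`, where `μ` runs through `M`;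
* it is closed under removing a point and under increasing the degree;
* if it contains `{μ} + M` in degree `d` and `M'` in degree `μ - 1`, where `μ ≥ 1`, it contains
  `M' + M` in degree `d`. -/
inductive Independent : ℕ → Multiset ℕ → Prop
  | cubes (t μ d : ℕ) (ht : 1 ≤ t) (h : t ^ 3 * (μ + 2).choose 3 ≤ (d + 3).choose 3) :
      Independent d (Multiset.replicate (t ^ 3) μ)
  | bounded (m d : ℕ) (M : Multiset ℕ) (hm : 2 ≤ m) (hM : ∀ μ ∈ M, μ ≤ m)
      (hd : m * ((m + 1) ^ 2 + 1) + (m ^ 2 / 3 + 10) * m ≤ d)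
      (h : (M.map fun μ => (μ + 2).choose 3).sum ≤ (d + 3).choose 3) : Independent d M
  | remove (d b : ℕ) (M : Multiset ℕ) (h : Independent d (b ::ₘ M)) : Independent d M
  | degree (d d' : ℕ) (M : Multiset ℕ) (hd : d ≤ d') (h : Independent d M) : Independent d' M
  | collision (d μ : ℕ) (M M' : Multiset ℕ) (hμ : 1 ≤ μ) (h : Independent d (μ ::ₘ M))
      (h' : Independent (μ - 1) M') : Independent d (M' + M)

lemma forms_eq {r k d : ℕ} (m : Fin k → ℕ) (v : Fin k → Fin (r + 1) → ℂ) (hv : ∀ i, v i ≠ 0) :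
    forms d m (fun i => Projectivization.mk ℂ (v i) (hv i)) =
      Pool.Agent.H938R2.forms (r + 1) d m v := by
  unfold forms
  ext F
  rw [Submodule.mem_inf, Submodule.restrictScalars_mem, Submodule.mem_iInf,
    Pool.Agent.H938R2.mem_forms, mem_homogeneousSubmodule]
  have key : F.IsHomogeneous d → ∀ i,
      (F ∈ primeIdeal (Projectivization.mk ℂ (v i) (hv i)) ^ m i ↔
        Pool.Agent.H938R2.VanishesToOrder (m i) (v i) F) := by
    intro hF i
    rw [primeIdeal_mk]
    exact Pool.Agent.TH176.FB.mem_pow_iff_vanishes (hv i) ((mem_homogeneousSubmodule _ _).2 hF)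
  constructor
  · rintro ⟨h1, h2⟩
    exact ⟨h1, fun i => (key h1 i).1 (h2 i)⟩
  · rintro ⟨h1, h2⟩
    exact ⟨h1, fun i => (key h1 i).2 (h2 i)⟩

lemma emp {d : ℕ} {M : Multiset ℕ} (h : NoForms d M) :
    Pool.Agent.Y55.Col.Emp 3 (d + 1) M := by
  induction h with
  | cubes t μ d ht h => exact Pool.Agent.H35.FP.cubes_emp ht h
  | bounded m d M hm hM hd h =>
    exact Pool.Agent.H35.FP.emp_of_G (Pool.Agent.H35.FP.G_three2 ℂ hm) hd hM h
  | point d b M h ih => exact ih.point b
  | degree d d' M hd h ih => exact ih.mono (by omega)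
  | collision d μ M M' h h' ih ih' => exact ih.collision (ih'.mono (by omega))

lemma ind {d : ℕ} {M : Multiset ℕ} (h : Independent d M) :
    Pool.Agent.Y55.Col.Ind 2 (d + 1) M := by
  induction h with
  | cubes t μ d ht h => exact Pool.Agent.H35.FP.cubes_ind ht h
  | bounded m d M hm hM hd h =>
    exact Pool.Agent.H35.FP.ind_of_G (by omega) (Pool.Agent.H35.FP.G_three2 ℂ hm) hd hM h
  | remove d b M h ih => exact ih.remove
  | degree d d' M hd h ih => exact ih.degree (by omega)
  | collision d μ M M' hμ h h' ih ih' =>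
    rw [Nat.sub_add_cancel hμ] at ih'
    exact ih.collision ih'

lemma main {k d : ℕ} (m : Fin k → ℕ)
    (h : NoForms d ((Finset.univ : Finset (Fin k)).val.map m) ∨
      Independent d ((Finset.univ : Finset (Fin k)).val.map m)) :
    Generally (fun P : Fin k → ℙ ℂ (Fin (3 + 1) → ℂ) => ImposesMaximalConditions d m P) := by
  rcases h with hT | hT
  · obtain ⟨D, hD, h⟩ := (Pool.Agent.Y55.Col.general_of_emp (emp hT)).and
      (Pool.Agent.H938R2.forGeneral_ne_zero (by omega))
    refine generally_of_poly D hD fun v hv hp => ?_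
    obtain ⟨h1, h2⟩ := h v hp
    have h3 := Pool.Agent.H938R2.finrank_forms_ge 3 d m v h2
    unfold ImposesMaximalConditions
    rw [forms_eq _ v hv, h1, finrank_bot]
    rw [h1, finrank_bot, zero_add] at h3
    rw [max_eq_left]
    · simp
    · rw [sub_nonpos]
      exact_mod_cast h3
  · obtain ⟨D, hD, h⟩ := Pool.Agent.Y55.Col.general_of_ind (ind hT)
    refine generally_of_poly D hD fun v hv hp => ?_
    have h1 := h v hp
    have e2 : ∀ i, m i + 3 - 1 = m i + 2 := fun i => by omega
    unfold ImposesMaximalConditions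
    rw [forms_eq _ v hv]
    simp only [e2]
    have h2 : (Module.finrank ℂ (Pool.Agent.H938R2.forms (3 + 1) d m v) : ℤ) =
        ((d + 3).choose 3 : ℤ) - ∑ i, ((m i + 2).choose 3 : ℤ) := by
      rw [eq_sub_iff_add_eq]
      exact_mod_cast h1
    rw [← h2, max_eq_right]
    exact Int.natCast_nonneg _

/-- (a) `t ^ 3` general points of `ℙ ^ 3` of multiplicity `μ` impose maximal conditions in degree
`d`, for all `t ≥ 1`, `μ` and `d`.

(b) General points of `ℙ ^ 3` with multiplicities `m i` impose maximal conditions in degree `d`, if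
the degree and the multiplicities belong to the class `NoForms` or to the class `Independent`. -/
theorem result :
    (∀ t μ d : ℕ, 1 ≤ t →
      Generally (fun P : Fin (t ^ 3) → ℙ ℂ (Fin (3 + 1) → ℂ) =>
        ImposesMaximalConditions d (fun _ => μ) P)) ∧
    ∀ (k d : ℕ) (m : Fin k → ℕ),
      (NoForms d ((Finset.univ : Finset (Fin k)).val.map m) ∨
        Independent d ((Finset.univ : Finset (Fin k)).val.map m)) →
      Generally (fun P : Fin k → ℙ ℂ (Fin (3 + 1) → ℂ) => ImposesMaximalConditions d m P) := by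
  refine ⟨fun t μ d ht => main _ ?_, fun k d m h => main m h⟩
  rw [Multiset.map_const', Finset.card_val, Finset.card_univ, Fintype.card_fin]
  rcases Nat.le_total ((d + 3).choose 3) (t ^ 3 * (μ + 2).choose 3) with h | h
  · exact Or.inl (NoForms.cubes t μ d ht h)
  · exact Or.inr (Independent.cubes t μ d ht h)

end Pool.Agent.Results.MP_1dafdd_ag.PerfectCubes
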