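import Mathlib
import Pool.Agent.H35.SQ.Fin6
import Pool.Agent.H35.SQ.Lib

set_option autoImplicit false

/-!
# General fat points of `ℙ ^ 3` of the same multiplicity: all degrees but at most one

Let `k` be the number of points and `ρ = k ^ (1 / 3)`. The expected degree at which the system of
forms with `k` points of multiplicity `m` becomes nonempty is about `ρ (m + 1) - 2`.

* If `k ≥ 10 ^ 7`, for all `m` and all multiplicities `≤ m`, general points impose independent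
  conditions in all degrees `d ≥ ρ (m + 1) - 2 + 4321 / 10000 + 86 / (10 ρ)`.
* If all multiplicities are `≥ m`, there are no forms in all degrees `d ≤ ρ (m + 1) - 2 - E`, where
  `E = 3 / 2` if `k ≥ 10 ^ 7` and `m ≥ ρ ^ 2 / 20`, and `E = 566 / 1000` if `k ≥ 10 ^ 11` and
  `m ≥ ρ ^ 2 / 15`, and `E = 446 / 1000` if `k ≥ 10 ^ 12` and `m ≥ 3 ρ ^ 2`.
* So for EVERY `m`, `k` general points of the same multiplicity `m` impose maximal conditions in all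
  degrees but at most one if `k ≥ 10 ^ 11` (at most two consecutive ones if `k ≥ 10 ^ 7`).
* If `m ≥ ρ ^ 2 / 15`, `j (m + 1) ≥ 3 ρ ^ 2` and `k - j ≥ 10 ^ 11`, in EVERY degree there are no forms
  or any `k - j` of the points impose independent conditions. So `j = 1` is possible if
  `m ≥ 3 ρ ^ 2`: in the exceptional degree the failure is caused by the last point only.
* If `k ≥ 10 ^ 12` and `m ≥ 3 ρ ^ 2`, they impose maximal conditions in ALL degrees if the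
  fractional part of `ρ (m + 1)` lies between `446 / 1000` and `5665 / 10000`. If `k` is not a
  perfect cube, these are at least twelve per cent of all multiplicities `m`.

In each statement one dense open set of points serves all degrees (and all multiplicities).
The points are `(1 : P i 0 : P i 1 : P i 2)`.
-/

namespace Pool.Agent.Results.MP_1dafdd_ag.SpaceAllButOneDegree

open MvPolynomial Pool.Agent Pool.Agent.H35.SP Pool.Agent.H35.SQ Pool.Agent.TH3.IR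

/-- The fat point scheme with multiplicities `m i` at the points `(1 : P i 0 : … : P i (r - 1))`
of `ℙ^r` imposes maximal conditions on the forms of degree `d`. -/
def Maximal {r k : ℕ} (m : Fin k → ℕ) (P : Fin k → Fin r → ℂ) (d : ℕ) : Prop :=
  (Module.finrank ℂ
    ↥(MvPolynomial.homogeneousSubmodule (Fin (r + 1)) ℂ d ⊓
      Submodule.restrictScalars ℂ
        (⨅ i : Fin k, (Ideal.span (Set.range fun j : Fin r =>
          (X j.succ - C (P i j) * X 0 : MvPolynomial (Fin (r + 1)) ℂ))) ^ (m i))) : ℤ) =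
    max 0 ((Nat.choose (d + r) r : ℤ) - ∑ i, (Nat.choose (m i + r - 1) r : ℤ))

/-- `Q` holds for all tuples of `k` points of `ℙ ^ 3` in a dense open set. -/
def General (k : ℕ) (Q : (Fin k → Fin 3 → ℂ) → Prop) : Prop :=
  ∃ F : MvPolynomial (Fin k × Fin 3) ℂ, F ≠ 0 ∧
    ∀ P : Fin k → Fin 3 → ℂ,
      MvPolynomial.eval (fun ij : Fin k × Fin 3 => P ij.1 ij.2) F ≠ 0 → Q P

theorem General.and {k : ℕ} {Q Q' : (Fin k → Fin 3 → ℂ) → Prop} (h : General k Q)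
    (h' : General k Q') : General k fun P => Q P ∧ Q' P := by
  obtain ⟨F, hF, h1⟩ := h
  obtain ⟨F', hF', h1'⟩ := h'
  refine ⟨F * F', mul_ne_zero hF hF', fun P hP => ?_⟩
  rw [map_mul] at hP
  exact ⟨h1 P (left_ne_zero_of_mul hP), h1' P (right_ne_zero_of_mul hP)⟩

theorem General.mono {k : ℕ} {Q Q' : (Fin k → Fin 3 → ℂ) → Prop} (h : General k Q)
    (hQ : ∀ P, Q P → Q' P) : General k Q' := by
  obtain ⟨F, hF, h1⟩ := h
  exact ⟨F, hF, fun P hP => hQ P (h1 P hP)⟩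

theorem maximal_of_surj {k : ℕ} {w : Fin k → ℕ} {P : Fin k → Fin 3 → ℂ} {d : ℕ}
    (h : H932R5.SurjAt w P d) :
    ∑ i, (w i + 2).choose 3 ≤ (d + 3).choose 3 ∧ Maximal w P d := by
  have h1 := h.finrank
  have h2 : ∑ i, (w i + 2).choose 3 ≤ (d + 3).choose 3 := by
    refine le_trans (Nat.le_add_right _ _) (le_of_eq h1)
  refine ⟨h2, ?_⟩
  unfold Maximal
  have h3 : (∑ i, ((w i + 2).choose 3 : ℤ)) + (Module.finrank ℂ ↥(H932R5.Vd d w P) : ℤ) =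
      ((d + 3).choose 3 : ℤ) := by exact_mod_cast h1
  have h4 : ∑ i, ((w i + 2).choose 3 : ℤ) ≤ ((d + 3).choose 3 : ℤ) := by exact_mod_cast h2
  change (Module.finrank ℂ ↥(H932R5.Vd d w P) : ℤ) =
    max 0 (((d + 3).choose 3 : ℤ) - ∑ i, ((w i + 2).choose 3 : ℤ))
  rw [max_eq_right]
  · linarith
  · linarith

theorem maximal_of_noF {k : ℕ} {w : Fin k → ℕ} {P : Fin k → Fin 3 → ℂ} {d : ℕ}
    (h : NoF w P d) : Maximal w P d := by
  have h1 := h.finrank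
  have h2 := H932R5.finrank_ge d w P
  rw [h1, add_zero] at h2
  unfold Maximal
  change (Module.finrank ℂ ↥(H932R5.Vd d w P) : ℤ) =
    max 0 (((d + 3).choose 3 : ℤ) - ∑ i, ((w i + 2).choose 3 : ℤ))
  have h4 : ((d + 3).choose 3 : ℤ) ≤ ∑ i, ((w i + 2).choose 3 : ℤ) := by exact_mod_cast h2
  rw [h1, max_eq_left]
  · rfl
  · linarith

theorem partA {k : ℕ} {c : ℝ} (hS : ∀ d m : ℕ, (k : ℝ) ^ ((1 : ℝ) / 3) * (m + 1) - c ≤ d →
      SurS (fun _ : Fin k => m) (RegS (0 : ℝ) d (fun _ : Fin 2 => 0) (fun _ => 1))) (m : ℕ) :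
    General k fun P => ∀ w : Fin k → ℕ, (∀ i, w i ≤ m) →
      ∀ d : ℕ, (k : ℝ) ^ ((1 : ℝ) / 3) * (m + 1) - c ≤ d →
        ∑ i, (w i + 2).choose 3 ≤ (d + 3).choose 3 ∧ Maximal w P d := by
  obtain ⟨F, hF, h1⟩ := indep_of_SurS (hS ⌈(k : ℝ) ^ ((1 : ℝ) / 3) * (m + 1) - c⌉₊ m
    (Nat.le_ceil _))
  refine ⟨F, hF, fun P hP w hw d hd => ?_⟩
  exact maximal_of_surj (((h1 P hP).mono_w hw).mono_d (Nat.ceil_le.2 hd))

theorem maximal_zero {k : ℕ} (P : Fin k → Fin 3 → ℂ) (d : ℕ) : Maximal (fun _ => 0) P d :=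
  (maximal_of_surj (H932R5.SurjAt.of_zero (w := fun _ : Fin k => 0) (fun _ => rfl) P d)).2

/-- finitely many degrees -/
theorem General.finite {k : ℕ} {Q : ℕ → (Fin k → Fin 3 → ℂ) → Prop} (D : ℕ)
    (h : ∀ d, d < D → General k (Q d)) : General k fun P => ∀ d, d < D → Q d P := by
  obtain ⟨F, hF, h2⟩ := exists_common (ι := Fin k × Fin 3) (Finset.range D)
    (fun d P => Q d fun i j => P (i, j)) (by
      intro d hd
      obtain ⟨F, hF, h3⟩ := h d (Finset.mem_range.1 hd)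
      exact ⟨F, hF, fun P hP => h3 (fun i j => P (i, j)) hP⟩)
  exact ⟨F, hF, fun P hP d hd => h2 _ hP d (Finset.mem_range.2 hd)⟩

/-- independence -/
theorem indep {k : ℕ} (hk : 10 ^ 7 ≤ k) (m : ℕ) : General k fun P =>
    ∀ w : Fin k → ℕ, (∀ i, w i ≤ m) → ∀ d : ℕ,
      (k : ℝ) ^ ((1 : ℝ) / 3) * (m + 1) - 2 + 4321 / 10000 + 86 / (10 * (k : ℝ) ^ ((1 : ℝ) / 3)) ≤
        d → ∑ i, (w i + 2).choose 3 ≤ (d + 3).choose 3 ∧ Maximal w P d := by
  have h215 : 215 ≤ (k : ℝ) ^ ((1 : ℝ) / 3) := by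
    apply cbrt_ge
    have h2 : ((10 ^ 7 : ℕ) : ℝ) ≤ k := by exact_mod_cast hk
    norm_num at h2 ⊢
    linarith
  have hρ3 := cbrt_pow k
  refine (partA (k := k) (c := 2 - (4321 / 10000 + 86 / (10 * (k : ℝ) ^ ((1 : ℝ) / 3))))
    (fun d m hd => ?_) m).mono fun P hP w hw d hd => hP w hw d ?_
  · obtain ⟨ρ, hρ⟩ : ∃ ρ : ℝ, ρ = (k : ℝ) ^ ((1 : ℝ) / 3) := ⟨_, rfl⟩
    rw [← hρ] at h215 hρ3 hd
    refine SurS_five (E := 4321 / 10000 + 86 / (10 * ρ)) d m h215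
      (by rw [Fintype.card_fin]; exact hρ3) (le_of_eq ?_) ?_
    · have : ρ ≠ 0 := by linarith
      field_simp
    · linarith
  · linarith

/-- independence, simpler bounds -/
theorem indep' {k : ℕ} {c : ℝ} (hc : 10 ^ 7 ≤ k ∧ c = 475 / 1000 ∨ 10 ^ 11 ≤ k ∧ c = 434 / 1000 ∨
      10 ^ 12 ≤ k ∧ c = 4335 / 10000) (m : ℕ) : General k fun P =>
    ∀ w : Fin k → ℕ, (∀ i, w i ≤ m) → ∀ d : ℕ,
      (k : ℝ) ^ ((1 : ℝ) / 3) * (m + 1) - 2 + c ≤
        d → ∑ i, (w i + 2).choose 3 ≤ (d + 3).choose 3 ∧ Maximal w P d := by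
  have hk7 : 10 ^ 7 ≤ k := by
    rcases hc with ⟨h, _⟩ | ⟨h, _⟩ | ⟨h, _⟩ <;> omega
  refine (indep hk7 m).mono fun P hP w hw d hd => hP w hw d (le_trans ?_ hd)
  have h1 : 4321 / 10000 + 86 / (10 * (k : ℝ) ^ ((1 : ℝ) / 3)) ≤ c := by
    rcases hc with ⟨h, rfl⟩ | ⟨h, rfl⟩ | ⟨h, rfl⟩
    · have h215 : 215 ≤ (k : ℝ) ^ ((1 : ℝ) / 3) := by
        apply cbrt_ge
        have h2 : ((10 ^ 7 : ℕ) : ℝ) ≤ k := by exact_mod_cast h
        norm_num at h2 ⊢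
        linarith
      have h3 : 86 / (10 * (k : ℝ) ^ ((1 : ℝ) / 3)) ≤ 86 / (10 * 215) := by
        apply div_le_div_of_nonneg_left <;> linarith
      norm_num at h3 ⊢
      linarith
    · have h215 : 4641 ≤ (k : ℝ) ^ ((1 : ℝ) / 3) := by
        apply cbrt_ge
        have h2 : ((10 ^ 11 : ℕ) : ℝ) ≤ k := by exact_mod_cast h
        norm_num at h2 ⊢
        linarith
      have h3 : 86 / (10 * (k : ℝ) ^ ((1 : ℝ) / 3)) ≤ 86 / (10 * 4641) := by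
        apply div_le_div_of_nonneg_left <;> linarith
      norm_num at h3 ⊢
      linarith
    · have h215 : 10000 ≤ (k : ℝ) ^ ((1 : ℝ) / 3) := by
        apply cbrt_ge
        have h2 : ((10 ^ 12 : ℕ) : ℝ) ≤ k := by exact_mod_cast h
        norm_num at h2 ⊢
        linarith
      have h3 : 86 / (10 * (k : ℝ) ^ ((1 : ℝ) / 3)) ≤ 86 / (10 * 10000) := by
        apply div_le_div_of_nonneg_left <;> linarith
      norm_num at h3 ⊢
      linarith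
  linarith

/-- emptiness -/
theorem noforms {k m : ℕ} {E : ℝ}
    (h : 10 ^ 7 ≤ k ∧ 1 / 20 * (k : ℝ) ^ ((2 : ℝ) / 3) ≤ m ∧ E = 3 / 2 ∨
      10 ^ 11 ≤ k ∧ 1 / 15 * (k : ℝ) ^ ((2 : ℝ) / 3) ≤ m ∧ E = 566 / 1000 ∨
      10 ^ 12 ≤ k ∧ 3 * (k : ℝ) ^ ((2 : ℝ) / 3) ≤ m ∧ E = 446 / 1000) :
    General k fun P => ∀ w : Fin k → ℕ, (∀ i, m ≤ w i) → ∀ d : ℕ,
      d ≤ (k : ℝ) ^ ((1 : ℝ) / 3) * (m + 1) - 2 - E → NoF w P d ∧ Maximal w P d := by
  rw [cbrt_sq] at h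
  have h' : 215 ≤ (k : ℝ) ^ ((1 : ℝ) / 3) ∧ 1 / 20 * ((k : ℝ) ^ ((1 : ℝ) / 3)) ^ 2 ≤ m ∧
        E = 3 / 2 ∨
      4641 ≤ (k : ℝ) ^ ((1 : ℝ) / 3) ∧ 1 / 15 * ((k : ℝ) ^ ((1 : ℝ) / 3)) ^ 2 ≤ m ∧
        E = 566 / 1000 ∨
      10000 ≤ (k : ℝ) ^ ((1 : ℝ) / 3) ∧ 3 * ((k : ℝ) ^ ((1 : ℝ) / 3)) ^ 2 ≤ m ∧
        E = 446 / 1000 := by
    rcases h with ⟨h, h1⟩ | ⟨h, h1⟩ | ⟨h, h1⟩
    · refine Or.inl ⟨?_, h1⟩
      apply cbrt_ge
      have h2 : ((10 ^ 7 : ℕ) : ℝ) ≤ k := by exact_mod_cast h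
      norm_num at h2 ⊢
      linarith
    · refine Or.inr (Or.inl ⟨?_, h1⟩)
      apply cbrt_ge
      have h2 : ((10 ^ 11 : ℕ) : ℝ) ≤ k := by exact_mod_cast h
      norm_num at h2 ⊢
      linarith
    · refine Or.inr (Or.inr ⟨?_, h1⟩)
      apply cbrt_ge
      have h2 : ((10 ^ 12 : ℕ) : ℝ) ≤ k := by exact_mod_cast h
      norm_num at h2 ⊢
      linarith
  obtain ⟨F, hF, h1⟩ := exists_empty_cases (k := k) (m := m) rfl E h'
  refine ⟨F, hF, fun P hP w hw d hd => ?_⟩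
  have h2 := h1 P hP w hw d hd
  exact ⟨h2, maximal_of_noF h2⟩

/-- equal multiplicities -/
theorem equal {k m : ℕ} {c E : ℝ} (hc : 10 ^ 7 ≤ k ∧ c = 475 / 1000 ∨
      10 ^ 11 ≤ k ∧ c = 434 / 1000 ∨ 10 ^ 12 ≤ k ∧ c = 4335 / 10000)
    (hE : 10 ^ 7 ≤ k ∧ 1 / 20 * (k : ℝ) ^ ((2 : ℝ) / 3) ≤ m ∧ E = 3 / 2 ∨
      10 ^ 11 ≤ k ∧ 1 / 15 * (k : ℝ) ^ ((2 : ℝ) / 3) ≤ m ∧ E = 566 / 1000 ∨
      10 ^ 12 ≤ k ∧ 3 * (k : ℝ) ^ ((2 : ℝ) / 3) ≤ m ∧ E = 446 / 1000) :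
    General k fun P => ∀ d : ℕ, ((d : ℝ) ≤ (k : ℝ) ^ ((1 : ℝ) / 3) * (m + 1) - 2 - E ∨
      (k : ℝ) ^ ((1 : ℝ) / 3) * (m + 1) - 2 + c ≤ d) → Maximal (fun _ => m) P d := by
  refine ((indep' hc m).and (noforms hE)).mono ?_
  rintro P ⟨hP1, hP2⟩ d hd
  rcases hd with hd | hd
  · exact (hP2 (fun _ => m) (fun _ => le_rfl) d hd).2
  · exact (hP1 (fun _ => m) (fun _ => le_rfl) d hd).2

/-- small multiplicities -/
theorem small {k m : ℕ} (hk : 10 ^ 7 ≤ k) (hm : 0 < m)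
    (hms : (m : ℝ) ≤ 1 / 15 * (k : ℝ) ^ ((2 : ℝ) / 3)) :
    ∃ d₀ : ℕ, General k fun P => ∀ d : ℕ, d ≠ d₀ → Maximal (fun _ => m) P d := by
  have h215 : 215 ≤ (k : ℝ) ^ ((1 : ℝ) / 3) := by
    apply cbrt_ge
    have h2 : ((10 ^ 7 : ℕ) : ℝ) ≤ k := by exact_mod_cast hk
    norm_num at h2 ⊢
    linarith
  rw [cbrt_sq] at hms
  obtain ⟨d₀, hd₀⟩ := small_mult h215 (cbrt_pow k) hm (by linarith)
  refine ⟨d₀, ?_⟩
  have h1 := General.finite (k := k) (Q := fun d P => d ≠ d₀ → Maximal (fun _ => m) P d)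
    ⌈(k : ℝ) ^ ((1 : ℝ) / 3) * (m + 1)⌉₊ (fun d _ => by
      by_cases hd : d = d₀
      · exact ⟨1, one_ne_zero, fun _ _ h => absurd hd h⟩
      · obtain ⟨F, hF, h2⟩ := hd₀ d hd
        exact ⟨F, hF, fun P hP _ => h2 P hP⟩)
  refine (h1.and (indep' (Or.inl ⟨hk, rfl⟩) m)).mono ?_
  rintro P ⟨hP1, hP2⟩ d hd
  rcases lt_or_ge d ⌈(k : ℝ) ^ ((1 : ℝ) / 3) * (m + 1)⌉₊ with h3 | h3
  · exact hP1 d h3 hd
  · refine (hP2 (fun _ => m) (fun _ => le_rfl) d ?_).2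
    have h4 := Nat.ceil_le.1 h3
    linarith

/-- the system of some of the points -/
theorem maximal_some {k n : ℕ} {w : Fin k → ℕ} {P : Fin k → Fin 3 → ℂ} {d : ℕ}
    {e : Fin n → Fin k} (he : Function.Injective e) (hw : ∀ i, i ∉ Set.range e → w i = 0)
    (h : ∑ i, (w (e i) + 2).choose 3 ≤ (d + 3).choose 3 ∧
      Maximal (fun i => w (e i)) (fun i => P (e i)) d) :
    ∑ i, (w i + 2).choose 3 ≤ (d + 3).choose 3 ∧ Maximal w P d := by
  classical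
  have h1 : ∀ f : ℕ → ℤ, f 0 = 0 → ∑ i, f (w (e i)) = ∑ i, f (w i) := by
    intro f hf
    rw [← Finset.sum_subset (Finset.subset_univ (Finset.univ.image e)) (by
      intro i _ hi
      rw [hw i (by
        intro hcon
        obtain ⟨j, rfl⟩ := hcon
        exact hi (Finset.mem_image_of_mem _ (Finset.mem_univ _))), hf])]
    rw [Finset.sum_image (fun a _ b _ hab => he hab)]
  have h2 : (⨅ i : Fin n, (Ideal.span (Set.range fun j : Fin 3 =>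
      (X j.succ - C (P (e i) j) * X 0 : MvPolynomial (Fin (3 + 1)) ℂ))) ^ (w (e i))) =
      ⨅ i : Fin k, (Ideal.span (Set.range fun j : Fin 3 =>
        (X j.succ - C (P i j) * X 0 : MvPolynomial (Fin (3 + 1)) ℂ))) ^ (w i) := by
    apply le_antisymm
    · refine le_iInf fun i => ?_
      by_cases hi : i ∈ Set.range e
      · obtain ⟨j, rfl⟩ := hi
        exact iInf_le _ j
      · rw [hw i hi, pow_zero, Ideal.one_eq_top]
        exact le_top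
    · exact le_iInf fun i => iInf_le _ (e i)
  refine ⟨?_, ?_⟩
  · have := h1 (fun a => (((a + 2).choose 3 : ℕ) : ℤ)) (by simp)
    have h3 : ∑ i, (w (e i) + 2).choose 3 = ∑ i, (w i + 2).choose 3 := by exact_mod_cast this
    rw [← h3]
    exact h.1
  · have h3 := h.2
    unfold Maximal at h3 ⊢
    rw [h2, h1 (fun a => ((Nat.choose (a + 3 - 1) 3 : ℕ) : ℤ)) (by simp)] at h3
    exact h3

/-- finitely many conditions -/
theorem General.all {α : Type} {k : ℕ} (s : Finset α) {Q : α → (Fin k → Fin 3 → ℂ) → Prop}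
    (h : ∀ a ∈ s, General k (Q a)) : General k fun P => ∀ a ∈ s, Q a P := by
  classical
  induction s using Finset.induction_on with
  | empty => exact ⟨1, one_ne_zero, fun P _ a ha => absurd ha (Finset.notMem_empty a)⟩
  | insert b s hb ih =>
    refine ((h b (Finset.mem_insert_self b s)).and
      (ih fun a ha => h a (Finset.mem_insert_of_mem ha))).mono ?_
    rintro P ⟨h1, h2⟩ a ha
    rcases Finset.mem_insert.1 ha with rfl | ha
    · exact h1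
    · exact h2 a ha

/-- some of the points of a general tuple are general -/
theorem General.comp {k n : ℕ} {e : Fin n → Fin k} (he : Function.Injective e)
    {Q : (Fin n → Fin 3 → ℂ) → Prop} (h : General n Q) :
    General k fun P => Q fun i => P (e i) := by
  obtain ⟨F, hF, h1⟩ := h
  have hinj : Function.Injective (Prod.map e id : Fin n × Fin 3 → Fin k × Fin 3) :=
    he.prodMap Function.injective_id
  refine ⟨rename (Prod.map e id) F, ?_, fun P hP => h1 _ ?_⟩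
  · intro hcon
    exact hF (rename_injective _ hinj (by rw [hcon, map_zero]))
  · rw [eval_rename] at hP
    exact hP

/-- in every degree there are no forms, or the conditions of all points but `j` are independent -/
theorem all_but {k j m : ℕ} (hk : 10 ^ 11 + j ≤ k) (hm : 1 / 15 * (k : ℝ) ^ ((2 : ℝ) / 3) ≤ m)
    (hj : 3 * (k : ℝ) ^ ((2 : ℝ) / 3) ≤ j * (m + 1)) :
    General k fun P => ∀ d : ℕ, NoF (fun _ => m) P d ∨ ∀ J : Finset (Fin k), J.card = j →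
      ∑ i, ((if i ∈ J then 0 else m) + 2).choose 3 ≤ (d + 3).choose 3 ∧
        Maximal (fun i => if i ∈ J then 0 else m) P d := by
  classical
  have h1 : General k fun P => ∀ J ∈ Finset.univ.powersetCard j, ∀ d : ℕ,
      ((k - j : ℕ) : ℝ) ^ ((1 : ℝ) / 3) * (m + 1) - 2 + 434 / 1000 ≤ d →
      ∑ i, ((if i ∈ (J : Finset (Fin k)) then 0 else m) + 2).choose 3 ≤ (d + 3).choose 3 ∧
        Maximal (fun i => if i ∈ J then 0 else m) P d := by
    refine General.all _ fun J hJ => ?_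
    have hJc : (Jᶜ).card = k - j := by
      rw [Finset.card_compl, Fintype.card_fin, (Finset.mem_powersetCard.1 hJ).2]
    have hmem : ∀ i, (Jᶜ).orderEmbOfFin hJc i ∉ J := fun i =>
      Finset.mem_compl.1 (Finset.orderEmbOfFin_mem _ hJc i)
    have h2 := indep' (k := k - j) (c := 434 / 1000) (Or.inr (Or.inl ⟨by omega, rfl⟩)) m
    refine (General.comp ((Jᶜ).orderEmbOfFin hJc).injective h2).mono fun P hP d hd => ?_
    refine maximal_some ((Jᶜ).orderEmbOfFin hJc).injective (fun i hi => ?_) ?_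
    · rw [Finset.range_orderEmbOfFin] at hi
      simp only [Finset.mem_coe, Finset.mem_compl, not_not] at hi
      exact if_pos hi
    · have h3 : (fun i => if (Jᶜ).orderEmbOfFin hJc i ∈ J then 0 else m) = fun _ => m := by
        funext i
        exact if_neg (hmem i)
      have h4 := hP (fun _ => m) (fun _ => le_rfl) d hd
      simp only [h3]
      simp only [if_neg (hmem _)]
      exact h4
  refine (h1.and (noforms (k := k) (m := m) (E := 566 / 1000)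
    (Or.inr (Or.inl ⟨by omega, hm, rfl⟩)))).mono ?_
  rintro P ⟨hP1, hP2⟩ d
  rcases le_or_gt (d : ℝ) ((k : ℝ) ^ ((1 : ℝ) / 3) * (m + 1) - 2 - 566 / 1000) with h5 | h5
  · exact Or.inl (hP2 (fun _ => m) (fun _ => le_rfl) d h5).1
  · right
    intro J hJ
    refine hP1 J (Finset.mem_powersetCard.2 ⟨Finset.subset_univ J, hJ⟩) d ?_
    obtain ⟨ρ, hρ⟩ : ∃ ρ : ℝ, ρ = (k : ℝ) ^ ((1 : ℝ) / 3) := ⟨_, rfl⟩
    obtain ⟨σ, hσ⟩ : ∃ σ : ℝ, σ = ((k - j : ℕ) : ℝ) ^ ((1 : ℝ) / 3) := ⟨_, rfl⟩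
    have hρ3 := cbrt_pow k
    have hσ3 := cbrt_pow (k - j)
    rw [cbrt_sq] at hj
    rw [← hρ] at h5 hρ3 hj
    rw [← hσ] at hσ3 ⊢
    have hσ0 : 0 ≤ σ := by rw [hσ]; positivity
    have hρ0 : 0 ≤ ρ := by rw [hρ]; positivity
    have hjk : ((k - j : ℕ) : ℝ) = k - j := by
      rw [Nat.cast_sub (by omega)]
    rw [hjk] at hσ3
    have hk0 : (0 : ℝ) < k := by
      have : 0 < k := by omega
      exact_mod_cast this
    have hρp : 0 < ρ := by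
      rcases hρ0.lt_or_eq with h | h
      · exact h
      · rw [← h] at hρ3
        norm_num at hρ3
        linarith
    have hle : σ ≤ ρ := by
      by_contra hcon
      push Not at hcon
      have := pow_lt_pow_left₀ hcon hρ0 (show 3 ≠ 0 by norm_num)
      have hj0 : (0 : ℝ) ≤ j := Nat.cast_nonneg j
      linarith
    have h6 : (j : ℝ) ≤ (ρ - σ) * (3 * ρ ^ 2) := by
      have e1 : (j : ℝ) = (ρ - σ) * (ρ ^ 2 + ρ * σ + σ ^ 2) := by
        have : (j : ℝ) = ρ ^ 3 - σ ^ 3 := by linarith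
        rw [this]
        ring
      rw [e1]
      apply mul_le_mul_of_nonneg_left _ (by linarith)
      nlinarith
    have h7 : 1 ≤ (ρ - σ) * (m + 1) := by
      have hm0 : (0 : ℝ) ≤ m := Nat.cast_nonneg m
      have h8 : 3 * ρ ^ 2 * 1 ≤ 3 * ρ ^ 2 * ((ρ - σ) * (m + 1)) := by
        have e2 : (j : ℝ) * (m + 1) ≤ (ρ - σ) * (3 * ρ ^ 2) * (m + 1) :=
          mul_le_mul_of_nonneg_right h6 (by linarith)
        have e3 : 3 * ρ ^ 2 * ((ρ - σ) * (m + 1)) = (ρ - σ) * (3 * ρ ^ 2) * (m + 1) := by ring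
        rw [e3, mul_one]
        exact hj.trans e2
      exact le_of_mul_le_mul_left h8 (by positivity)
    linarith

/-- `k` general points of `ℙ ^ 3` of multiplicity `m` impose maximal conditions in EVERY degree. -/
def AllDegrees (k m : ℕ) : Prop :=
  General k fun P => ∀ d : ℕ, Maximal (fun _ => m) P d

theorem result :
    -- independent conditions
    (∀ k : ℕ, 10 ^ 7 ≤ k → ∀ m : ℕ, General k fun P => ∀ w : Fin k → ℕ, (∀ i, w i ≤ m) →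
      ∀ d : ℕ, (k : ℝ) ^ ((1 : ℝ) / 3) * (m + 1) - 2 + 4321 / 10000 +
        86 / (10 * (k : ℝ) ^ ((1 : ℝ) / 3)) ≤ d →
        ∑ i, (w i + 2).choose 3 ≤ (d + 3).choose 3 ∧ Maximal w P d) ∧
    -- no forms
    (∀ (k m : ℕ) (E : ℝ), (10 ^ 7 ≤ k ∧ 1 / 20 * (k : ℝ) ^ ((2 : ℝ) / 3) ≤ m ∧ E = 3 / 2 ∨
      10 ^ 11 ≤ k ∧ 1 / 15 * (k : ℝ) ^ ((2 : ℝ) / 3) ≤ m ∧ E = 566 / 1000 ∨
      10 ^ 12 ≤ k ∧ 3 * (k : ℝ) ^ ((2 : ℝ) / 3) ≤ m ∧ E = 446 / 1000) →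
      General k fun P => ∀ w : Fin k → ℕ, (∀ i, m ≤ w i) → ∀ d : ℕ,
        (d : ℝ) ≤ (k : ℝ) ^ ((1 : ℝ) / 3) * (m + 1) - 2 - E → NoF w P d ∧ Maximal w P d) ∧
    -- every multiplicity: all degrees but at most two consecutive ones
    (∀ k : ℕ, 10 ^ 7 ≤ k → ∀ m : ℕ,
      ∃ d₀ : ℕ, General k fun P => ∀ d : ℕ, d ≠ d₀ → d ≠ d₀ + 1 → Maximal (fun _ => m) P d) ∧
    -- every multiplicity: all degrees but at most one
    (∀ k : ℕ, 10 ^ 11 ≤ k → ∀ m : ℕ,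
      ∃ d₀ : ℕ, General k fun P => ∀ d : ℕ, d ≠ d₀ → Maximal (fun _ => m) P d) ∧
    -- in every degree there are no forms or the conditions of all points but any `j` are independent
    (∀ k j m : ℕ, 10 ^ 11 + j ≤ k → 1 / 15 * (k : ℝ) ^ ((2 : ℝ) / 3) ≤ m →
      3 * (k : ℝ) ^ ((2 : ℝ) / 3) ≤ j * (m + 1) →
      General k fun P => ∀ d : ℕ, NoF (fun _ => m) P d ∨ ∀ J : Finset (Fin k), J.card = j →
        ∑ i, ((if i ∈ J then 0 else m) + 2).choose 3 ≤ (d + 3).choose 3 ∧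
          Maximal (fun i => if i ∈ J then 0 else m) P d) ∧
    -- all degrees
    (∀ k : ℕ, 10 ^ 12 ≤ k → ∀ m : ℕ, 3 * (k : ℝ) ^ ((2 : ℝ) / 3) ≤ m →
      446 / 1000 ≤ Int.fract ((k : ℝ) ^ ((1 : ℝ) / 3) * (m + 1)) →
      Int.fract ((k : ℝ) ^ ((1 : ℝ) / 3) * (m + 1)) ≤ 5665 / 10000 → AllDegrees k m) ∧
    -- this happens for at least twelve per cent of the multiplicities
    (∀ k : ℕ, 10 ^ 12 ≤ k → (¬ ∃ t : ℕ, t ^ 3 = k) → ∃ M₀ : ℕ, ∀ M : ℕ, M₀ ≤ M →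
      12 / 100 * (M : ℝ) ≤ ({m : ℕ | m < M ∧ AllDegrees k m}.ncard : ℝ)) := by
  have D : ∀ k : ℕ, 10 ^ 12 ≤ k → ∀ m : ℕ, 3 * (k : ℝ) ^ ((2 : ℝ) / 3) ≤ m →
      446 / 1000 ≤ Int.fract ((k : ℝ) ^ ((1 : ℝ) / 3) * (m + 1)) →
      Int.fract ((k : ℝ) ^ ((1 : ℝ) / 3) * (m + 1)) ≤ 5665 / 10000 → AllDegrees k m := by
    intro k hk m hm h1 h2
    refine (equal (Or.inr (Or.inr ⟨hk, rfl⟩)) (Or.inr (Or.inr ⟨hk, hm, rfl⟩))).mono
      fun P hP d => hP d ?_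
    obtain ⟨X, hX⟩ : ∃ X : ℝ, X = (k : ℝ) ^ ((1 : ℝ) / 3) * (m + 1) := ⟨_, rfl⟩
    rw [← hX] at h1 h2 ⊢
    by_contra hcon
    push Not at hcon
    obtain ⟨h3, h4⟩ := hcon
    have h5 : X = ⌊X⌋ + Int.fract X := (Int.floor_add_fract X).symm
    have h6 : ((⌊X⌋ : ℤ) : ℝ) - 2 < (d : ℝ) := by linarith
    have h7 : (d : ℝ) < ((⌊X⌋ : ℤ) : ℝ) - 1 := by linarith
    have h8 : ⌊X⌋ - 2 < (d : ℤ) := by exact_mod_cast h6
    have h9 : (d : ℤ) < ⌊X⌋ - 1 := by exact_mod_cast h7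
    omega
  refine ⟨fun k hk m => indep hk m, fun k m E h => noforms h, ?_, ?_,
    fun k j m hk hm hj => all_but hk hm hj, D, ?_⟩
  · intro k hk m
    rcases Nat.eq_zero_or_pos m with rfl | hm
    · exact ⟨0, 1, one_ne_zero, fun P _ d _ _ => maximal_zero P d⟩
    have h215 : 215 ≤ (k : ℝ) ^ ((1 : ℝ) / 3) := by
      apply cbrt_ge
      have h2 : ((10 ^ 7 : ℕ) : ℝ) ≤ k := by exact_mod_cast hk
      norm_num at h2 ⊢
      linarith
    rcases le_or_gt (1 / 20 * (k : ℝ) ^ ((2 : ℝ) / 3)) (m : ℝ) with hml | hms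
    · -- large multiplicities
      refine ⟨⌊(k : ℝ) ^ ((1 : ℝ) / 3) * (m + 1) - 35 / 10⌋₊ + 1,
        (equal (Or.inl ⟨hk, rfl⟩) (Or.inl ⟨hk, hml, rfl⟩)).mono fun P hP d hd hd' => hP d ?_⟩
      obtain ⟨ρ, hρ⟩ : ∃ ρ : ℝ, ρ = (k : ℝ) ^ ((1 : ℝ) / 3) := ⟨_, rfl⟩
      rw [← hρ] at h215 hd hd' ⊢
      have hm0 : (0 : ℝ) ≤ m := Nat.cast_nonneg m
      have h6 : 0 ≤ ρ * (m + 1) - 35 / 10 := by nlinarith
      rcases le_or_gt (d : ℝ) (ρ * (m + 1) - 35 / 10) with h5 | h5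
      · left
        linarith
      · right
        have h7 : ⌊ρ * (m + 1) - 35 / 10⌋₊ < d := (Nat.floor_lt h6).2 h5
        have h8 : ⌊ρ * (m + 1) - 35 / 10⌋₊ + 3 ≤ d := by omega
        have h9 : ((⌊ρ * (m + 1) - 35 / 10⌋₊ : ℝ) + 3) ≤ d := by exact_mod_cast h8
        have h10 := Nat.lt_floor_add_one (ρ * (m + 1) - 35 / 10)
        linarith
    · -- small multiplicities
      obtain ⟨d₀, h1⟩ := small hk hm (by
        have : (0 : ℝ) ≤ (k : ℝ) ^ ((2 : ℝ) / 3) := by positivity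
        linarith)
      exact ⟨d₀, h1.mono fun P hP d hd _ => hP d hd⟩
  · intro k hk m
    have hk7 : 10 ^ 7 ≤ k := by omega
    rcases Nat.eq_zero_or_pos m with rfl | hm0
    · exact ⟨0, 1, one_ne_zero, fun P _ d _ => maximal_zero P d⟩
    rcases le_or_gt (1 / 15 * (k : ℝ) ^ ((2 : ℝ) / 3)) (m : ℝ) with hm | hms
    swap
    · exact small hk7 hm0 hms.le
    have h215 : 215 ≤ (k : ℝ) ^ ((1 : ℝ) / 3) := by
      apply cbrt_ge
      have h2 : ((10 ^ 7 : ℕ) : ℝ) ≤ k := by exact_mod_cast hk7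
      norm_num at h2 ⊢
      linarith
    refine ⟨⌊(k : ℝ) ^ ((1 : ℝ) / 3) * (m + 1) - 2566 / 1000⌋₊ + 1,
      (equal (Or.inr (Or.inl ⟨hk, rfl⟩)) (Or.inr (Or.inl ⟨hk, hm, rfl⟩))).mono
        fun P hP d hd => hP d ?_⟩
    obtain ⟨ρ, hρ⟩ : ∃ ρ : ℝ, ρ = (k : ℝ) ^ ((1 : ℝ) / 3) := ⟨_, rfl⟩
    rw [← hρ] at h215 hd ⊢
    have hm0 : (0 : ℝ) ≤ m := Nat.cast_nonneg m
    have h6 : 0 ≤ ρ * (m + 1) - 2566 / 1000 := by nlinarith
    rcases le_or_gt (d : ℝ) (ρ * (m + 1) - 2566 / 1000) with h5 | h5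
    · left
      linarith
    · right
      have h7 : ⌊ρ * (m + 1) - 2566 / 1000⌋₊ < d := (Nat.floor_lt h6).2 h5
      have h8 : ⌊ρ * (m + 1) - 2566 / 1000⌋₊ + 2 ≤ d := by omega
      have h9 : ((⌊ρ * (m + 1) - 2566 / 1000⌋₊ : ℝ) + 2) ≤ d := by exact_mod_cast h8
      have h10 := Nat.lt_floor_add_one (ρ * (m + 1) - 2566 / 1000)
      linarith
  · intro k hk hcube
    obtain ⟨N₀, hN₀⟩ := equi (α := (k : ℝ) ^ ((1 : ℝ) / 3)) (β := (k : ℝ) ^ ((1 : ℝ) / 3))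
      (a := 446 / 1000) (b := 5665 / 10000) (δ := 4 / 10000) (cbrt_irrational hcube) (by norm_num)
      (by norm_num) (by norm_num) (by norm_num)
    obtain ⟨m₀, hm₀⟩ : ∃ m₀ : ℕ, 3 * (k : ℝ) ^ ((2 : ℝ) / 3) ≤ m₀ := exists_nat_ge _
    refine ⟨max N₀ (10000 * m₀), fun M hM => ?_⟩
    have h1 := hN₀ M ((le_max_left _ _).trans hM)
    have h2 : 10000 * m₀ ≤ M := (le_max_right _ _).trans hM
    have h3 : (10000 : ℝ) * m₀ ≤ M := by exact_mod_cast h2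
    have hfin : {m : ℕ | m < M ∧ AllDegrees k m}.Finite :=
      (Set.finite_lt_nat M).subset fun m hm => hm.1
    have h4 : ((Finset.range M).filter fun m : ℕ =>
        446 / 1000 ≤ Int.fract ((k : ℝ) ^ ((1 : ℝ) / 3) * m + (k : ℝ) ^ ((1 : ℝ) / 3)) ∧
          Int.fract ((k : ℝ) ^ ((1 : ℝ) / 3) * m + (k : ℝ) ^ ((1 : ℝ) / 3)) ≤ 5665 / 10000) ⊆
        Finset.range m₀ ∪ hfin.toFinset := by
      intro m hm
      rw [Finset.mem_filter, Finset.mem_range] at hm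
      rw [Finset.mem_union, Finset.mem_range, Set.Finite.mem_toFinset]
      rcases lt_or_ge m m₀ with h5 | h5
      · exact Or.inl h5
      · right
        have h6 : (k : ℝ) ^ ((1 : ℝ) / 3) * m + (k : ℝ) ^ ((1 : ℝ) / 3) =
            (k : ℝ) ^ ((1 : ℝ) / 3) * (m + 1) := by ring
        rw [h6] at hm
        have h7 : (m₀ : ℝ) ≤ m := by exact_mod_cast h5
        exact ⟨hm.1, D k hk m (hm₀.trans h7) hm.2.1 hm.2.2⟩
    have h5 := (Finset.card_le_card h4).trans (Finset.card_union_le _ _)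
    rw [Finset.card_range, ← Set.ncard_eq_toFinset_card _ hfin] at h5
    have h6 : ((((Finset.range M).filter fun m : ℕ =>
        446 / 1000 ≤ Int.fract ((k : ℝ) ^ ((1 : ℝ) / 3) * m + (k : ℝ) ^ ((1 : ℝ) / 3)) ∧
          Int.fract ((k : ℝ) ^ ((1 : ℝ) / 3) * m + (k : ℝ) ^ ((1 : ℝ) / 3)) ≤ 5665 / 10000).card :
          ℕ) : ℝ) ≤ m₀ + ({m : ℕ | m < M ∧ AllDegrees k m}.ncard : ℝ) := by exact_mod_cast h5
    linarith

end Pool.Agent.Results.MP_1dafdd_ag.SpaceAllButOneDegree
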