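import Mathlib
import Pool.Agent.H35.FP.VolFin

set_option autoImplicit false

/-!
# General fat points some of which have arbitrary multiplicities

Let `r ≥ 2`, let `w 1, …, w k` be ANY multiplicities, and let `1 ≤ m ≤ n` be numbers.

* Let `P` be a set of the points such that the multiplicities outside of `P` are at most `n`, and
  let `y` be such that the points outside of `P` of multiplicity larger than `m` impose together at
  most as many conditions as one point of multiplicity `y`. Then for general points of `ℙ^r` the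
  fat point scheme imposes maximal conditions in every degree
  `d ≥ ∑_P w i + y + (2 m + r - 1) n + 10 m ^ 4 + 2 r m`.
* It imposes maximal conditions in every degree `d ≥ ∑_{w i > m} w i + 10 m ^ 4 + 2 r m`.
* If all multiplicities are at most `n` and at most `t ^ r` of them are larger than `m`, then it
  imposes maximal conditions in every degree
  `d ≥ t (n + r - 1) + (2 m + r - 1) n + 10 m ^ 4 + 2 r m`.

So, if only `N` of the multiplicities are larger than `m`, the maximum `n` of the multiplicities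
enters linearly, with a factor of about `N ^ (1 / r) + 2 m + r`. One and the same dense open set of
points works for all `d`, `m`, `n`, `P`, `y` and `t`.

The points are `(1 : p i 0 : … : p i (r - 1))`.
-/

namespace Pool.Agent.Results.MP_1dafdd_ag.UnboundedMultiplicities

open MvPolynomial Pool.Agent

/-- The fat point scheme with multiplicities `w i` at the points `(1 : p i 0 : … : p i (r - 1))`
of `ℙ^r` imposes maximal conditions on the forms of degree `d`. -/
def Maximal {r k : ℕ} (w : Fin k → ℕ) (p : Fin k → Fin r → ℂ) (d : ℕ) : Prop :=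
  (Module.finrank ℂ
    ↥(MvPolynomial.homogeneousSubmodule (Fin (r + 1)) ℂ d ⊓
      Submodule.restrictScalars ℂ
        (⨅ i : Fin k, (Ideal.span (Set.range fun j : Fin r =>
          (X j.succ - C (p i j) * X 0 : MvPolynomial (Fin (r + 1)) ℂ))) ^ (w i))) : ℤ) =
    max 0 ((Nat.choose (d + r) r : ℤ) - ∑ i, (Nat.choose (w i + r - 1) r : ℤ))

/-- The length of the fat point scheme with multiplicities `w i` in `ℙ^r`. -/
def len (r : ℕ) {k : ℕ} (w : Fin k → ℕ) : ℕ := ∑ i, Nat.choose (w i + r - 1) r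

theorem maximal_of {E k : ℕ} {w : Fin k → ℕ} {p : Fin k → Fin (E + 1) → ℂ} {d : ℕ}
    (h1 : (d + E + 1).choose (E + 1) ≤ ∑ i, (w i + E).choose (E + 1) →
      H932R5.EmptyAt w p d)
    (h2 : ∑ i, (w i + E).choose (E + 1) ≤ (d + E + 1).choose (E + 1) →
      H932R5.SurjAt w p d) : Maximal w p d := by
  have hE' : ∀ a : ℕ, a + (E + 1) = a + E + 1 := fun a => by omega
  unfold Maximal
  simp only [hE', Nat.add_sub_cancel]
  rcases Nat.le_total ((d + E + 1).choose (E + 1)) (∑ i, (w i + E).choose (E + 1)) with h | h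
  · have h3 : Module.finrank ℂ ↥(H932R5.Vd (E := E) d w p) = 0 := (h1 h).finrank
    have h4 : (Module.finrank ℂ
        ↥(MvPolynomial.homogeneousSubmodule (Fin (E + 1 + 1)) ℂ d ⊓
          Submodule.restrictScalars ℂ
            (⨅ i : Fin k, (Ideal.span (Set.range fun j : Fin (E + 1) =>
              (X j.succ - C (p i j) * X 0 :
                MvPolynomial (Fin (E + 1 + 1)) ℂ))) ^ (w i))) : ℤ) = 0 := by
      exact_mod_cast h3
    rw [h4]
    symm
    rw [max_eq_left]
    have h5 : ((d + E + 1).choose (E + 1) : ℤ) ≤ ∑ i, ((w i + E).choose (E + 1) : ℤ) := by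
      exact_mod_cast h
    linarith
  · have h3 := (h2 h).finrank
    have h4 : (∑ i, ((w i + E).choose (E + 1) : ℤ)) + (Module.finrank ℂ
        ↥(MvPolynomial.homogeneousSubmodule (Fin (E + 1 + 1)) ℂ d ⊓
          Submodule.restrictScalars ℂ
            (⨅ i : Fin k, (Ideal.span (Set.range fun j : Fin (E + 1) =>
              (X j.succ - C (p i j) * X 0 :
                MvPolynomial (Fin (E + 1 + 1)) ℂ))) ^ (w i))) : ℤ) =
        ((d + E + 1).choose (E + 1) : ℤ) := by
      exact_mod_cast h3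
    have h5 : ∑ i, ((w i + E).choose (E + 1) : ℤ) ≤ ((d + E + 1).choose (E + 1) : ℤ) := by
      exact_mod_cast h
    rw [max_eq_right]
    · linarith
    · linarith

/-- Maximal conditions for general points in all degrees at least `B`, and in all degrees at all if
the length is large. -/
def AllDeg (r : ℕ) {k : ℕ} (w : Fin k → ℕ) (B : ℕ) : Prop :=
  ∃ F : MvPolynomial (Fin k × Fin r) ℂ, F ≠ 0 ∧
    ∀ p : Fin k → Fin r → ℂ,
      MvPolynomial.eval (fun ij : Fin k × Fin r => p ij.1 ij.2) F ≠ 0 →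
      ∀ d : ℕ, (B ≤ d ∨ (B + r).choose r ≤ len r w) → Maximal w p d

/-- A common open set. -/
theorem common {r k : ℕ} {w : Fin k → ℕ} (T : ℕ → Prop) (hT : ∃ B, T B)
    (h : ∀ B, T B → AllDeg r w B) :
    ∃ F : MvPolynomial (Fin k × Fin r) ℂ, F ≠ 0 ∧
      ∀ p : Fin k → Fin r → ℂ,
        MvPolynomial.eval (fun ij : Fin k × Fin r => p ij.1 ij.2) F ≠ 0 →
        ∀ d B : ℕ, T B → (B ≤ d ∨ (B + r).choose r ≤ len r w) → Maximal w p d := by
  classical
  obtain ⟨F, hF, hF'⟩ := h _ (Nat.find_spec hT)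
  refine ⟨F, hF, fun p hp d B hB hd => hF' p hp d ?_⟩
  have h1 : Nat.find hT ≤ B := Nat.find_min' hT hB
  rcases hd with hd | hd
  · exact Or.inl (h1.trans hd)
  · exact Or.inr ((Nat.choose_le_choose _ (by omega)).trans hd)

theorem allDeg_A {r : ℕ} (hr : 2 ≤ r) {k : ℕ} (w : Fin k → ℕ) {m n y : ℕ} (P : Finset (Fin k))
    (hm : 1 ≤ m) (hmn : m ≤ n) (hP : ∀ i, i ∉ P → w i ≤ n)
    (hy : ∑ i ∈ Pᶜ.filter (fun i => m < w i), (w i + r - 1).choose r ≤ (y + r - 1).choose r) :
    AllDeg r w (∑ i ∈ P, w i + y + (2 * m + r - 1) * n + (10 * m ^ 4 + 2 * r * m)) := by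
  classical
  obtain ⟨E, rfl⟩ : ∃ E, r = E + 1 := ⟨r - 1, by omega⟩
  have hE' : ∀ a : ℕ, a + (E + 1) = a + E + 1 := fun a => by omega
  have hG := H35.FP.Gv_all ℂ hm E (by omega)
  obtain ⟨F, hF, hF'⟩ := H35.FP.all_Gv hm hG w (fun i => decide (i ∈ P)) n y hmn
    (fun i hi => hP i (by simpa using hi)) (by
      simp only [hE', Nat.add_sub_cancel] at hy
      refine le_trans (le_of_eq ?_) hy
      rw [Finset.sum_filter, ← Finset.sum_subset (Finset.subset_univ Pᶜ)]
      · refine Finset.sum_congr rfl fun i hi => ?_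
        rw [Finset.mem_compl] at hi
        simp only [hi, decide_false, Bool.false_eq_true, if_false]
        by_cases h : w i ≤ m
        · rw [if_pos h, if_neg (by omega)]
        · rw [if_neg h, if_pos (by omega)]
          rfl
      · intro i _ hi
        rw [Finset.mem_compl, not_not] at hi
        simp [hi])
  refine ⟨F, hF, fun p hp d hd => ?_⟩
  have h1 : (∑ i, if decide (i ∈ P) = true then w i else 0) = ∑ i ∈ P, w i := by
    rw [← Finset.sum_filter]
    refine Finset.sum_congr ?_ fun _ _ => rfl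
    ext i
    simp
  have h2 := hF' p hp d (by
    rw [h1]
    unfold len at hd
    simp only [hE', Nat.add_sub_cancel] at hd
    exact hd)
  exact maximal_of h2.1 h2.2

theorem allDeg_B {r : ℕ} (hr : 2 ≤ r) {k : ℕ} (w : Fin k → ℕ) {m : ℕ} (hm : 1 ≤ m) :
    AllDeg r w (∑ i ∈ Finset.univ.filter (fun i => m < w i), w i +
      (10 * m ^ 4 + 2 * r * m)) := by
  classical
  obtain ⟨E, rfl⟩ : ∃ E, r = E + 1 := ⟨r - 1, by omega⟩
  have hE' : ∀ a : ℕ, a + (E + 1) = a + E + 1 := fun a => by omega
  have hG := H35.FP.Gb_all ℂ hm E (by omega)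
  obtain ⟨F, hF, hF'⟩ := H35.FP.all_Gb hm hG w
  refine ⟨F, hF, fun p hp d hd => ?_⟩
  have h1 : ∑ i ∈ Finset.univ.filter (fun i => m < w i), w i = H35.FP.lg m w := by
    unfold H35.FP.lg
    rw [Finset.sum_filter]
    refine Finset.sum_congr rfl fun i _ => ?_
    by_cases h : w i ≤ m
    · rw [if_neg (by omega), if_pos h]
    · rw [if_pos (by omega), if_neg h]
  have h2 := hF' p hp d (by
    unfold len at hd
    simp only [hE', Nat.add_sub_cancel] at hd
    rw [h1] at hd
    rw [Nat.add_comm (10 * m ^ 4 + 2 * (E + 1) * m)]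
    exact hd)
  exact maximal_of h2.1 h2.2

theorem pow_choose (r n t : ℕ) :
    t ^ r * (n + r - 1).choose r ≤ (t * (n + r - 1) + r - 1).choose r := by
  refine le_of_mul_le_mul_right (?_ : _ * r.factorial ≤ _ * r.factorial) (Nat.factorial_pos r)
  rw [mul_assoc, mul_comm ((n + r - 1).choose r), ← Nat.descFactorial_eq_factorial_mul_choose,
    mul_comm ((t * (n + r - 1) + r - 1).choose r), ← Nat.descFactorial_eq_factorial_mul_choose]
  calc t ^ r * (n + r - 1).descFactorial r ≤ t ^ r * (n + r - 1) ^ r :=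
        Nat.mul_le_mul_left _ (Nat.descFactorial_le_pow _ _)
    _ = (t * (n + r - 1)) ^ r := by rw [mul_pow]
    _ ≤ (t * (n + r - 1) + r - 1).descFactorial r := by
        rcases Nat.eq_zero_or_pos r with h | h
        · subst h
          simp
        · have h1 := Nat.pow_sub_le_descFactorial (t * (n + r - 1) + r - 1) r
          rwa [show t * (n + r - 1) + r - 1 + 1 - r = t * (n + r - 1) by omega] at h1

theorem result (r : ℕ) (hr : 2 ≤ r) (k : ℕ) (w : Fin k → ℕ) :
    ∃ F : MvPolynomial (Fin k × Fin r) ℂ, F ≠ 0 ∧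
      ∀ p : Fin k → Fin r → ℂ,
        MvPolynomial.eval (fun ij : Fin k × Fin r => p ij.1 ij.2) F ≠ 0 →
        ∀ d m n : ℕ, 1 ≤ m → m ≤ n →
          (∀ (y : ℕ) (P : Finset (Fin k)), (∀ i, i ∉ P → w i ≤ n) →
            ∑ i ∈ Pᶜ.filter (fun i => m < w i), (w i + r - 1).choose r ≤
              (y + r - 1).choose r →
            (∑ i ∈ P, w i + y + (2 * m + r - 1) * n + (10 * m ^ 4 + 2 * r * m) ≤ d ∨
              (∑ i ∈ P, w i + y + (2 * m + r - 1) * n + (10 * m ^ 4 + 2 * r * m) + r).choose r ≤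
                len r w) →
            Maximal w p d) ∧
          (∑ i ∈ Finset.univ.filter (fun i => m < w i), w i + (10 * m ^ 4 + 2 * r * m) ≤ d →
            Maximal w p d) ∧
          (∀ t : ℕ, (∀ i, w i ≤ n) →
            (Finset.univ.filter (fun i => m < w i)).card ≤ t ^ r →
            t * (n + r - 1) + (2 * m + r - 1) * n + (10 * m ^ 4 + 2 * r * m) ≤ d →
            Maximal w p d) := by
  classical
  obtain ⟨F1, hF1, hF1'⟩ := common (r := r) (w := w)
    (fun B => ∃ (m n y : ℕ) (P : Finset (Fin k)), 1 ≤ m ∧ m ≤ n ∧ (∀ i, i ∉ P → w i ≤ n) ∧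
      ∑ i ∈ Pᶜ.filter (fun i => m < w i), (w i + r - 1).choose r ≤ (y + r - 1).choose r ∧
      B = ∑ i ∈ P, w i + y + (2 * m + r - 1) * n + (10 * m ^ 4 + 2 * r * m))
    ⟨_, 1, 1, 0, Finset.univ, le_rfl, le_rfl, fun i hi => absurd (Finset.mem_univ i) hi, by
      rw [Finset.compl_univ, Finset.filter_empty, Finset.sum_empty]
      exact Nat.zero_le _, rfl⟩
    (fun B ⟨m, n, y, P, hm, hmn, hP, hy, hB⟩ => by
      rw [hB]
      exact allDeg_A hr w P hm hmn hP hy)
  obtain ⟨F2, hF2, hF2'⟩ := common (r := r) (w := w)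
    (fun B => ∃ m : ℕ, 1 ≤ m ∧
      B = ∑ i ∈ Finset.univ.filter (fun i => m < w i), w i + (10 * m ^ 4 + 2 * r * m))
    ⟨_, 1, le_rfl, rfl⟩ (fun B ⟨m, hm, hB⟩ => by
      rw [hB]
      exact allDeg_B hr w hm)
  refine ⟨F1 * F2, mul_ne_zero hF1 hF2, fun p hp d m n hm hmn => ?_⟩
  rw [map_mul] at hp
  have hA := hF1' p (left_ne_zero_of_mul hp) d
  have hB := hF2' p (right_ne_zero_of_mul hp) d
  refine ⟨fun y P hP hy hd => hA _ ⟨m, n, y, P, hm, hmn, hP, hy, rfl⟩ hd,
    fun hd => hB _ ⟨m, hm, rfl⟩ (Or.inl hd), fun t hn hc hd => ?_⟩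
  refine hA _ ⟨m, n, t * (n + r - 1), ∅, hm, hmn, fun i _ => hn i, ?_, rfl⟩ (Or.inl ?_)
  · rw [Finset.compl_empty]
    calc ∑ i ∈ Finset.univ.filter (fun i => m < w i), (w i + r - 1).choose r
        ≤ ∑ _i ∈ Finset.univ.filter (fun i => m < w i), (n + r - 1).choose r :=
          Finset.sum_le_sum fun i _ => Nat.choose_le_choose _ (by
            have := hn i
            omega)
      _ = (Finset.univ.filter (fun i => m < w i)).card * (n + r - 1).choose r := by
          rw [Finset.sum_const, smul_eq_mul]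
      _ ≤ t ^ r * (n + r - 1).choose r := Nat.mul_le_mul_right _ hc
      _ ≤ (t * (n + r - 1) + r - 1).choose r := pow_choose r n t
  · rw [Finset.sum_empty, zero_add]
    exact hd

end Pool.Agent.Results.MP_1dafdd_ag.UnboundedMultiplicities
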