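import Mathlib
import Pool.Graph.R_seed8.W608.PR.Final
import Pool.Agent.H35.FP.Allr

set_option autoImplicit false

/-!
# A degree bound for general fat points which is polynomial and uniform in the dimension

Let `r ≥ 2`, `m ≥ 1`, let `A` be a natural number with `A ^ 2 ≥ 48 m ^ 7` and `D = A + 2 r m`
(so `D` may be taken to be about `2 r m + 7 m ^ (7 / 2)`). For `k` general points of `ℙ^r` and all
multiplicities `m 1, …, m k ≤ m`, the fat point scheme imposes maximal conditions

* in every degree `d ≥ D`, and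
* in every degree `d` whatsoever, if its length is at least `binom (D + r) r`.

One and the same dense open set of points works for all `d`. So a tuple
`(r, k, m 1, …, m k, d)` with `1 ≤ m i ≤ m` for which the general fat point scheme fails to impose
maximal conditions has `d < D` and length less than `binom (D + r) r`.

The points are `(1 : P i 0 : … : P i (r - 1))`.
-/

namespace Pool.Agent.Results.MP_1dafdd_ag.UniformDegreeBound

open MvPolynomial Pool.Agent

/-- The fat point scheme with multiplicities `m i` at the points `(1 : P i 0 : … : P i (r - 1))`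
of `ℙ^r` imposes maximal conditions on the forms of degree `d`. -/
def Maximal {r k : ℕ} (m : Fin k → ℕ) (P : Fin k → Fin r → ℂ) (d : ℕ) : Prop :=
  (Module.finrank ℂ
    ↥(MvPolynomial.homogeneousSubmodule (Fin (r + 1)) ℂ d ⊓
      Submodule.restrictScalars ℂ
        (⨅ i : Fin k, (Ideal.span (Set.range fun j : Fin r =>
          (X j.succ - C (P i j) * X 0 : MvPolynomial (Fin (r + 1)) ℂ))) ^ (m i))) : ℤ) =
    max 0 ((Nat.choose (d + r) r : ℤ) - ∑ i, (Nat.choose (m i + r - 1) r : ℤ))

/-- For `k` general points of `ℙ^r` the fat point scheme with multiplicities `m i` imposes maximal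
conditions in degree `d`. -/
def GeneralMaximal (r k : ℕ) (m : Fin k → ℕ) (d : ℕ) : Prop :=
  ∃ F : MvPolynomial (Fin k × Fin r) ℂ, F ≠ 0 ∧
    ∀ P : Fin k → Fin r → ℂ,
      MvPolynomial.eval (fun ij : Fin k × Fin r => P ij.1 ij.2) F ≠ 0 → Maximal m P d

theorem result (r : ℕ) (hr : 2 ≤ r) (m : ℕ) (hm : 1 ≤ m) (A : ℕ) (hA : 48 * m ^ 7 ≤ A ^ 2) :
    (∀ (k : ℕ) (w : Fin k → ℕ), (∀ i, w i ≤ m) →
      ∃ F : MvPolynomial (Fin k × Fin r) ℂ, F ≠ 0 ∧
        ∀ P : Fin k → Fin r → ℂ,
          MvPolynomial.eval (fun ij : Fin k × Fin r => P ij.1 ij.2) F ≠ 0 →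
          ∀ d : ℕ,
            (A + 2 * r * m ≤ d ∨
              (A + 2 * r * m + r).choose r ≤ ∑ i, (w i + r - 1).choose r) →
            Maximal w P d) ∧
    (∀ (k : ℕ) (w : Fin k → ℕ) (d : ℕ), (∀ i, 1 ≤ w i ∧ w i ≤ m) → ¬ GeneralMaximal r k w d →
      d < A + 2 * r * m ∧ ∑ i, (w i + r - 1).choose r < (A + 2 * r * m + r).choose r ∧
        k < (A + 2 * r * m + r).choose r) := by
  obtain ⟨D, hD⟩ : ∃ D, D = A + 2 * r * m := ⟨_, rfl⟩
  rw [← hD]
  have part1 : ∀ (k : ℕ) (w : Fin k → ℕ), (∀ i, w i ≤ m) →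
      ∃ F : MvPolynomial (Fin k × Fin r) ℂ, F ≠ 0 ∧
        ∀ P : Fin k → Fin r → ℂ,
          MvPolynomial.eval (fun ij : Fin k × Fin r => P ij.1 ij.2) F ≠ 0 →
          ∀ d : ℕ, (D ≤ d ∨ (D + r).choose r ≤ ∑ i, (w i + r - 1).choose r) →
            Maximal w P d := by
    obtain ⟨E, rfl⟩ : ∃ E, r = E + 1 := ⟨r - 1, by omega⟩
    intro k w hw
    have hG := H35.FP.G_all2 ℂ hm hA E (by omega)
    rw [← hD] at hG
    obtain ⟨F, hF, hF'⟩ := W608.PR.all_degrees hm hG w hw
    refine ⟨F, hF, fun P hP d hd => ?_⟩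
    have hE' : ∀ a : ℕ, a + (E + 1) = a + E + 1 := fun a => by omega
    simp only [hE', Nat.add_sub_cancel] at hd
    obtain ⟨h1, h2⟩ := hF' P hP d hd
    unfold Maximal
    simp only [hE', Nat.add_sub_cancel]
    rcases Nat.le_total ((d + E + 1).choose (E + 1)) (∑ i, (w i + E).choose (E + 1)) with h | h
    · have h3 : Module.finrank ℂ ↥(H932R5.Vd (E := E) d w P) = 0 := (h1 h).finrank
      have h4 : (Module.finrank ℂ
          ↥(MvPolynomial.homogeneousSubmodule (Fin (E + 1 + 1)) ℂ d ⊓
            Submodule.restrictScalars ℂ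
              (⨅ i : Fin k, (Ideal.span (Set.range fun j : Fin (E + 1) =>
                (X j.succ - C (P i j) * X 0 :
                  MvPolynomial (Fin (E + 1 + 1)) ℂ))) ^ (w i))) : ℤ) = 0 := by
        exact_mod_cast h3
      rw [h4]
      symm
      rw [max_eq_left]
      have h5 : ((d + E + 1).choose (E + 1) : ℤ) ≤ ∑ i, ((w i + E).choose (E + 1) : ℤ) := by
        exact_mod_cast h
      linarith
    · have h3 := (h2 h).finrank
      have h4 : (∑ i, ((w i + E).choose (E + 1) : ℤ)) + (Module.finrank ℂ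
          ↥(MvPolynomial.homogeneousSubmodule (Fin (E + 1 + 1)) ℂ d ⊓
            Submodule.restrictScalars ℂ
              (⨅ i : Fin k, (Ideal.span (Set.range fun j : Fin (E + 1) =>
                (X j.succ - C (P i j) * X 0 :
                  MvPolynomial (Fin (E + 1 + 1)) ℂ))) ^ (w i))) : ℤ) =
          ((d + E + 1).choose (E + 1) : ℤ) := by
        exact_mod_cast h3
      have h5 : ∑ i, ((w i + E).choose (E + 1) : ℤ) ≤ ((d + E + 1).choose (E + 1) : ℤ) := by
        exact_mod_cast h
      rw [max_eq_right]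
      · linarith
      · linarith
  refine ⟨part1, ?_⟩
  intro k w d hw hfail
  obtain ⟨F, hF, hF'⟩ := part1 k w fun i => (hw i).2
  have h1 : ¬ (D ≤ d ∨ (D + r).choose r ≤ ∑ i, (w i + r - 1).choose r) := fun h =>
    hfail ⟨F, hF, fun P hP => hF' P hP d h⟩
  push Not at h1
  refine ⟨h1.1, h1.2, lt_of_le_of_lt ?_ h1.2⟩
  calc k = ∑ _i : Fin k, 1 := by
        rw [Finset.sum_const, Finset.card_univ, Fintype.card_fin, smul_eq_mul, mul_one]
    _ ≤ ∑ i, (w i + r - 1).choose r := Finset.sum_le_sum fun i _ =>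
        Nat.choose_pos (by have := (hw i).1; omega)

end Pool.Agent.Results.MP_1dafdd_ag.UniformDegreeBound
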